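import Mathlib

/-!
# TOL: cosine and sine transforms of a smooth function with compact support, inversion on the half line
-/

set_option autoImplicit false

open MeasureTheory Set Filter Topology
open scoped FourierTransform ContDiff SchwartzMap

namespace Pool.Agent.Helper49.TOL

/-- the cosine transform -/
noncomputable def Pc (Ψ : ℝ → ℝ) (u : ℝ) : ℝ := ∫ y, Ψ y * Real.cos (u * y)

/-- the sine transform -/
noncomputable def Ps (Ψ : ℝ → ℝ) (u : ℝ) : ℝ := ∫ y, Ψ y * Real.sin (u * y)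

theorem schw_bd (F : 𝓢(ℝ, ℂ)) : ∃ C : ℝ, 0 ≤ C ∧ ∀ x, ‖F x‖ ≤ C / (1 + |x|) ^ 3 := by
  refine ⟨2 ^ 3 * (Finset.Iic ((3, 0) : ℕ × ℕ)).sup (fun m => SchwartzMap.seminorm ℝ m.1 m.2) F, by positivity, fun x => ?_⟩
  have h := SchwartzMap.one_add_le_sup_seminorm_apply (𝕜 := ℝ) (m := ((3, 0) : ℕ × ℕ)) (k := 3) (n := 0) le_rfl le_rfl F x
  rw [norm_iteratedFDeriv_zero, Real.norm_eq_abs] at h
  rw [le_div_iff₀ (by positivity), mul_comm]
  exact h

/-- the complex Schwartz function -/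
noncomputable def cS {Ψ : ℝ → ℝ} (h : ContDiff ℝ ∞ Ψ) (hc : HasCompactSupport Ψ) : 𝓢(ℝ, ℂ) :=
  HasCompactSupport.toSchwartzMap (f := fun y => (Ψ y : ℂ)) (hc.comp_left (g := fun x : ℝ => (x : ℂ)) (by simp))
    (Complex.ofRealCLM.contDiff.comp h)

theorem cS_apply {Ψ : ℝ → ℝ} (h : ContDiff ℝ ∞ Ψ) (hc : HasCompactSupport Ψ) (y : ℝ) : cS h hc y = (Ψ y : ℂ) := rfl

theorem four_eq {Ψ : ℝ → ℝ} (h : ContDiff ℝ ∞ Ψ) (hc : HasCompactSupport Ψ) (u : ℝ) :
    (𝓕 (cS h hc)) (u / (2 * Real.pi)) = (Pc Ψ u : ℂ) - (Ps Ψ u : ℂ) * Complex.I := by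
  have hcos : Integrable fun y => Ψ y * Real.cos (u * y) :=
    (h.continuous.mul (by fun_prop)).integrable_of_hasCompactSupport hc.mul_right
  have hsin : Integrable fun y => Ψ y * Real.sin (u * y) :=
    (h.continuous.mul (by fun_prop)).integrable_of_hasCompactSupport hc.mul_right
  rw [SchwartzMap.fourier_coe, Real.fourier_eq']
  unfold Pc Ps
  rw [← integral_complex_ofReal, ← integral_complex_ofReal, ← integral_mul_const, ← integral_sub]
  · refine integral_congr_ae (Eventually.of_forall fun y => ?_)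
    simp only [smul_eq_mul, cS_apply]
    have e1 : ((-2 * Real.pi * inner ℝ y (u / (2 * Real.pi)) : ℝ) : ℂ) * Complex.I = ((-(u * y) : ℝ) : ℂ) * Complex.I := by
      congr 2
      have : inner ℝ y (u / (2 * Real.pi)) = (u / (2 * Real.pi)) * y := rfl
      rw [this]
      field_simp
    rw [e1, Complex.exp_mul_I, ← Complex.ofReal_cos, ← Complex.ofReal_sin, Real.cos_neg, Real.sin_neg]
    push_cast
    ring
  · exact hcos.ofReal
  · exact hsin.ofReal.mul_const _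

/-- the transform as a function of `u` -/
noncomputable def fu {Ψ : ℝ → ℝ} (h : ContDiff ℝ ∞ Ψ) (hc : HasCompactSupport Ψ) (u : ℝ) : ℂ :=
  (𝓕 (cS h hc)) (u / (2 * Real.pi))

/-- its derivative -/
noncomputable def fu' {Ψ : ℝ → ℝ} (h : ContDiff ℝ ∞ Ψ) (hc : HasCompactSupport Ψ) (u : ℝ) : ℂ :=
  (SchwartzMap.derivCLM ℝ ℂ (𝓕 (cS h hc))) (u / (2 * Real.pi)) / (2 * Real.pi : ℝ)

theorem fu_deriv {Ψ : ℝ → ℝ} (h : ContDiff ℝ ∞ Ψ) (hc : HasCompactSupport Ψ) (u : ℝ) : HasDerivAt (fu h hc) (fu' h hc u) u := by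
  have h1 : HasDerivAt (fun x => (𝓕 (cS h hc)) x) ((SchwartzMap.derivCLM ℝ ℂ (𝓕 (cS h hc))) (u / (2 * Real.pi))) (u / (2 * Real.pi)) := by
    rw [SchwartzMap.derivCLM_apply]
    exact (SchwartzMap.differentiableAt (𝓕 (cS h hc))).hasDerivAt
  have h2 : HasDerivAt (fun u : ℝ => u / (2 * Real.pi)) (1 / (2 * Real.pi)) u := (hasDerivAt_id u).div_const _
  have h3 := h1.scomp u h2
  refine h3.congr_deriv ?_
  unfold fu'
  rw [Complex.real_smul]
  push_cast
  ring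

theorem fu_bd {Ψ : ℝ → ℝ} (h : ContDiff ℝ ∞ Ψ) (hc : HasCompactSupport Ψ) : ∃ N : ℝ, 0 ≤ N ∧ ∀ u,
    ‖fu h hc u‖ ≤ N / (1 + |u|) ^ 3 ∧ ‖fu' h hc u‖ ≤ N / (1 + |u|) ^ 3 := by
  obtain ⟨C1, hC1, h1⟩ := schw_bd (𝓕 (cS h hc))
  obtain ⟨C2, hC2, h2⟩ := schw_bd (SchwartzMap.derivCLM ℝ ℂ (𝓕 (cS h hc)))
  have hpi := Real.pi_gt_three
  have hp : 0 < 2 * Real.pi := by positivity
  have key : ∀ C u : ℝ, 0 ≤ C → C / (1 + |u / (2 * Real.pi)|) ^ 3 ≤ C * (2 * Real.pi) ^ 3 / (1 + |u|) ^ 3 := by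
    intro C u hC
    rw [div_le_div_iff₀ (by positivity) (by positivity), mul_assoc, ← mul_pow]
    refine mul_le_mul_of_nonneg_left (pow_le_pow_left₀ (by positivity) ?_ 3) hC
    rw [abs_div, abs_of_pos hp, mul_add, mul_div_cancel₀ _ hp.ne']
    linarith
  refine ⟨(C1 + C2) * (2 * Real.pi) ^ 3, by positivity, fun u => ⟨?_, ?_⟩⟩
  · refine (h1 _).trans ((key C1 u hC1).trans ?_)
    gcongr
    linarith
  · unfold fu'
    rw [norm_div, Complex.norm_real, Real.norm_eq_abs, abs_of_pos hp]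
    refine (div_le_self (norm_nonneg _) (by linarith)).trans ((h2 _).trans ((key C2 u hC2).trans ?_))
    gcongr
    linarith

/-- the integrand of the inversion formula is a real part -/
theorem re_eq {Ψ : ℝ → ℝ} (h : ContDiff ℝ ∞ Ψ) (hc : HasCompactSupport Ψ) (z u : ℝ) :
    (Complex.exp ((u * z : ℝ) * Complex.I) * fu h hc u).re = Pc Ψ u * Real.cos (u * z) + Ps Ψ u * Real.sin (u * z) := by
  unfold fu
  rw [four_eq, Complex.exp_mul_I, ← Complex.ofReal_cos, ← Complex.ofReal_sin]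
  generalize Real.cos (u * z) = a
  generalize Real.sin (u * z) = b
  simp
  ring

theorem Pc_neg (Ψ : ℝ → ℝ) (u : ℝ) : Pc Ψ (-u) = Pc Ψ u := by
  unfold Pc
  simp [neg_mul, Real.cos_neg]

theorem Ps_neg (Ψ : ℝ → ℝ) (u : ℝ) : Ps Ψ (-u) = -Ps Ψ u := by
  unfold Ps
  rw [← integral_neg]
  simp [neg_mul, Real.sin_neg]

/-- the inversion formula on the whole line -/
theorem inv_line {Ψ : ℝ → ℝ} (h : ContDiff ℝ ∞ Ψ) (hc : HasCompactSupport Ψ) (z : ℝ) :
    Integrable (fun u => Pc Ψ u * Real.cos (u * z) + Ps Ψ u * Real.sin (u * z)) ∧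
    ∫ u, (Pc Ψ u * Real.cos (u * z) + Ps Ψ u * Real.sin (u * z)) = 2 * Real.pi * Ψ z := by
  have hpi := Real.pi_pos
  have hp : (2 * Real.pi) ≠ 0 := by positivity
  have hi0 : Integrable (fun v : ℝ => Complex.exp ((2 * Real.pi * v * z : ℝ) * Complex.I) * (𝓕 (cS h hc)) v) := by
    refine (SchwartzMap.integrable (𝓕 (cS h hc))).bdd_mul (c := 1) (by fun_prop) (Eventually.of_forall fun v => ?_)
    rw [Complex.norm_exp_ofReal_mul_I]
  have hinv : ∫ v : ℝ, Complex.exp ((2 * Real.pi * v * z : ℝ) * Complex.I) * (𝓕 (cS h hc)) v = (Ψ z : ℂ) := by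
    have h1 : (𝓕⁻ (𝓕 (cS h hc))) z = cS h hc z := by rw [FourierTransform.fourierInv_fourier_eq]
    rw [SchwartzMap.fourierInv_coe, Real.fourierInv_eq', cS_apply] at h1
    rw [← h1]
    refine integral_congr_ae (Eventually.of_forall fun v => ?_)
    simp only [smul_eq_mul]
    congr 3
    have : inner ℝ v z = z * v := rfl
    rw [this]
    push_cast
    ring
  have hi1 : Integrable (fun u : ℝ => Complex.exp ((u * z : ℝ) * Complex.I) * fu h hc u) := by
    have h2 := hi0.comp_div hp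
    refine h2.congr (Eventually.of_forall fun u => ?_)
    unfold fu
    simp only
    congr 3
    field_simp
  have e2 : ∫ u : ℝ, Complex.exp ((u * z : ℝ) * Complex.I) * fu h hc u = (2 * Real.pi * Ψ z : ℝ) := by
    have h2 := Measure.integral_comp_div (fun v : ℝ => Complex.exp ((2 * Real.pi * v * z : ℝ) * Complex.I) * (𝓕 (cS h hc)) v) (2 * Real.pi)
    rw [hinv, abs_of_pos (by positivity), Complex.real_smul] at h2
    push_cast
    rw [show (2 * (Real.pi : ℂ) * (Ψ z : ℂ)) = ((2 * Real.pi : ℝ) : ℂ) * (Ψ z : ℂ) by push_cast; ring, ← h2]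
    refine integral_congr_ae (Eventually.of_forall fun u => ?_)
    unfold fu
    simp only
    congr 3
    rw [show 2 * Real.pi * (u / (2 * Real.pi)) * z = u * z by field_simp]
    exact (Complex.ofReal_mul u z).symm
  constructor
  · refine hi1.re.congr (Eventually.of_forall fun u => ?_)
    exact re_eq h hc z u
  · have h3 : ∫ u : ℝ, (Complex.exp ((u * z : ℝ) * Complex.I) * fu h hc u).re = 2 * Real.pi * Ψ z := by
      have h4 := integral_re hi1
      simp only [RCLike.re_eq_complex_re] at h4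
      rw [h4, e2, Complex.ofReal_re]
    rw [← h3]
    exact integral_congr_ae (Eventually.of_forall fun u => (re_eq h hc z u).symm)

/-- on the half line -/
theorem inv_half {Ψ : ℝ → ℝ} (h : ContDiff ℝ ∞ Ψ) (hc : HasCompactSupport Ψ) (z : ℝ) :
    IntegrableOn (fun u => Pc Ψ u * Real.cos (u * z) + Ps Ψ u * Real.sin (u * z)) (Ioi 0) ∧
    ∫ u in Ioi 0, (Pc Ψ u * Real.cos (u * z) + Ps Ψ u * Real.sin (u * z)) = Real.pi * Ψ z := by
  obtain ⟨hi, he⟩ := inv_line h hc z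
  refine ⟨hi.integrableOn, ?_⟩
  have hev : ∀ u : ℝ, Pc Ψ |u| * Real.cos (|u| * z) + Ps Ψ |u| * Real.sin (|u| * z) =
      Pc Ψ u * Real.cos (u * z) + Ps Ψ u * Real.sin (u * z) := by
    intro u
    rcases abs_cases u with ⟨h1, -⟩ | ⟨h1, -⟩
    · rw [h1]
    · rw [h1, Pc_neg, Ps_neg, neg_mul, Real.cos_neg, Real.sin_neg]
      ring
  have h1 := integral_comp_abs (f := fun u => Pc Ψ u * Real.cos (u * z) + Ps Ψ u * Real.sin (u * z))
  simp only [hev] at h1
  rw [he] at h1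
  linarith

/-- **The core.** -/
theorem core {Ψ : ℝ → ℝ} (h : ContDiff ℝ ∞ Ψ) (hc : HasCompactSupport Ψ) : ∃ (N : ℝ) (Pc' Ps' : ℝ → ℝ), 0 ≤ N ∧
    Continuous Pc' ∧ Continuous Ps' ∧ (∀ u, HasDerivAt (Pc Ψ) (Pc' u) u ∧ HasDerivAt (Ps Ψ) (Ps' u) u) ∧
    (∀ u, |Pc Ψ u| ≤ N / (1 + |u|) ^ 3 ∧ |Ps Ψ u| ≤ N / (1 + |u|) ^ 3 ∧ |Pc' u| ≤ N / (1 + |u|) ^ 3 ∧ |Ps' u| ≤ N / (1 + |u|) ^ 3) ∧
    ∀ z : ℝ, IntegrableOn (fun u => Pc Ψ u * Real.cos (u * z) + Ps Ψ u * Real.sin (u * z)) (Ioi 0) ∧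
      ∫ u in Ioi 0, (Pc Ψ u * Real.cos (u * z) + Ps Ψ u * Real.sin (u * z)) = Real.pi * Ψ z := by
  obtain ⟨N, hN, hb⟩ := fu_bd h hc
  have e1 : ∀ u, Pc Ψ u = (fu h hc u).re := by
    intro u
    unfold fu
    rw [four_eq]
    simp
  have e2 : ∀ u, Ps Ψ u = -(fu h hc u).im := by
    intro u
    unfold fu
    rw [four_eq]
    simp
  have hc' : Continuous (fu' h hc) := by
    unfold fu'
    have := (SchwartzMap.derivCLM ℝ ℂ (𝓕 (cS h hc))).continuous
    fun_prop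
  refine ⟨N, fun u => (fu' h hc u).re, fun u => -(fu' h hc u).im, hN, by fun_prop, by fun_prop, fun u => ⟨?_, ?_⟩,
    fun u => ⟨?_, ?_, ?_, ?_⟩, inv_half h hc⟩
  · have h1 : HasDerivAt (fun u => (fu h hc u).re) ((fu' h hc u).re) u :=
      Complex.reCLM.hasFDerivAt.comp_hasDerivAt u (fu_deriv h hc u)
    rw [show Pc Ψ = fun u => (fu h hc u).re from funext e1]
    exact h1
  · have h0 : HasDerivAt (fun u => (fu h hc u).im) ((fu' h hc u).im) u :=
      Complex.imCLM.hasFDerivAt.comp_hasDerivAt u (fu_deriv h hc u)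
    have h1 := h0.neg
    rw [show Ps Ψ = fun u => -(fu h hc u).im from funext e2]
    exact h1
  · rw [e1]
    exact (Complex.abs_re_le_norm _).trans (hb u).1
  · rw [e2, abs_neg]
    exact (Complex.abs_im_le_norm _).trans (hb u).1
  · exact (Complex.abs_re_le_norm _).trans (hb u).2
  · simp only [abs_neg]
    exact (Complex.abs_im_le_norm _).trans (hb u).2

end Pool.Agent.Helper49.TOL
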